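import Pool.Agent.helper3.FS.SpecE

/-!
# ENCH: the energy estimate for a chain
-/

set_option autoImplicit false

open Complex Metric Set Filter Topology MeasureTheory
open HY (UD T S hd UN RM)
open RT

noncomputable section

namespace FSE

/-- the row sum: near part and far part. -/
theorem ENCH_row (I : Finset ℕ) (h g d p : ℕ → ℝ) (ρ io A B : ℝ) (hio : 0 ≤ io)
    (hp : ∀ t ∈ I, 0 ≤ p t)
    (h1 : ∀ t ∈ I, h t ≤ g t) (h2 : ∀ t ∈ I, d t ≤ ρ → h t ≤ io)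
    (hA : ∑ t ∈ I.filter (fun t => d t ≤ ρ), p t ≤ A)
    (hB : ∑ t ∈ I.filter (fun t => ρ < d t), g t * p t ≤ B) :
    ∑ t ∈ I, h t * p t ≤ io * A + B := by
  have hsplit : ∑ t ∈ I, h t * p t = ∑ t ∈ I.filter (fun t => d t ≤ ρ), h t * p t +
      ∑ t ∈ I.filter (fun t => ¬ d t ≤ ρ), h t * p t :=
    (Finset.sum_filter_add_sum_filter_not I (fun t => d t ≤ ρ) (fun t => h t * p t)).symm
  rw [hsplit]
  have e1 : ∑ t ∈ I.filter (fun t => d t ≤ ρ), h t * p t ≤ io * A := by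
    calc ∑ t ∈ I.filter (fun t => d t ≤ ρ), h t * p t
        ≤ ∑ t ∈ I.filter (fun t => d t ≤ ρ), io * p t := by
          apply Finset.sum_le_sum
          intro t ht
          rw [Finset.mem_filter] at ht
          exact mul_le_mul_of_nonneg_right (h2 t ht.1 ht.2) (hp t ht.1)
      _ = io * ∑ t ∈ I.filter (fun t => d t ≤ ρ), p t := by rw [Finset.mul_sum]
      _ ≤ io * A := mul_le_mul_of_nonneg_left hA hio
  have e2 : ∑ t ∈ I.filter (fun t => ¬ d t ≤ ρ), h t * p t ≤ B := by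
    have hf : I.filter (fun t => ¬ d t ≤ ρ) = I.filter (fun t => ρ < d t) := by
      apply Finset.filter_congr
      intro t _
      exact not_le
    rw [hf]
    refine le_trans ?_ hB
    apply Finset.sum_le_sum
    intro t ht
    rw [Finset.mem_filter] at ht
    exact mul_le_mul_of_nonneg_right (h1 t ht.1) (hp t ht.1)
  linarith

theorem ENCH (hKCH : KCH_stmt) (hSCH : SCH_stmt) (hNRB : NRB_stmt) (hSHR : SHR_stmt)
    (hQFN : QFN_stmt) (hTBM : TBM_stmt) (hTDF : TDF_stmt) (hTPT : TPT_stmt) (hARO : ARO_stmt) :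
    ENCH_stmt := by
  intro s ε δ hs hs1 hε hδ
  obtain ⟨c₀, hc0, hc01, hK⟩ := hKCH s hs hs1
  obtain ⟨κ, hκ0, hκ1, hS⟩ := hSCH s ε hs hs1 hε
  obtain ⟨C₁, hC1, hS1⟩ := hS κ hκ0 le_rfl
  have hδc : 0 < δ * c₀ := mul_pos hδ hc0
  obtain ⟨n, hn⟩ : ∃ n : ℕ, C₁ * (1 - κ / 8) ^ n ≤ δ * c₀ := by
    obtain ⟨n, hn⟩ := exists_pow_lt_of_lt_one (show 0 < δ * c₀ / (C₁ + 1) by positivity)
      (show 1 - κ / 8 < 1 by linarith)
    refine ⟨n, ?_⟩
    have h0 : 0 ≤ (1 - κ / 8) ^ n := pow_nonneg (by linarith) n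
    have h1 : (C₁ + 1) * (1 - κ / 8) ^ n ≤ δ * c₀ := by
      rw [lt_div_iff₀ (by linarith)] at hn
      linarith [mul_comm ((1 - κ / 8) ^ n) (C₁ + 1)]
    nlinarith
  have hro := hARO.1 (n + 1)
  have hron := hARO.1 n
  obtain ⟨C₂, hC2, hN⟩ := hNRB s ε (ro (n + 1)) hs hs1 hε hro.2.1
  refine ⟨1 - ro (n + 1), C₂ / c₀, by linarith [hro.2.1], by linarith [hron.1, hron.2.2.1],
    div_nonneg hC2 hc0.le, ?_⟩
  intro N W F c hch I q q' w io hio hmem hvis hsep hne hloc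
  have hV : TD s (W N) := hch.td N le_rfl
  have h0 : TD s (W 0) := hch.td 0 (Nat.zero_le _)
  have hQ : ∀ r ∈ I, cmp F N (q r) ∈ W N := fun r hr =>
    (hK N W F c hch (q r) (hmem r hr).1 (q r) (hmem r hr).1).1 N le_rfl
  have hQ' : ∀ r ∈ I, cmp F N (q' r) ∈ W N := fun r hr =>
    (hK N W F c hch (q' r) (hmem r hr).2.1 (q' r) (hmem r hr).2.1).1 N le_rfl
  have posV : ∀ r ∈ I, ∀ t ∈ I, 0 < bl (W N) (cmp F N (q r)) (cmp F N (q' t)) := fun r hr t ht =>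
    (hTBM s (W N) hs hV _ (hQ r hr) _ (hQ' t ht)).2.2.2.2.1 (hne r hr t ht)
  have pos0 : ∀ r ∈ I, ∀ t ∈ I, 0 < bl (W 0) (q r) (q' t) := fun r hr t ht =>
    (hTBM s (W 0) hs h0 _ (hmem r hr).1 _ (hmem t ht).2.1).2.2.2.2.1
      (fun he => hne r hr t ht (by rw [he]))
  set H : ℕ → ℕ → ℝ := fun r t => Real.log (bl (W 0) (q r) (q' t)) -
    Real.log (bl (W N) (cmp F N (q r)) (cmp F N (q' t))) with hHdef
  have hlow : ∀ r ∈ I, ∀ t ∈ I, c₀ * N * (w r * w t) ≤ H r t := by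
    intro r hr t ht
    have hk := (hK N W F c hch (q r) (hmem r hr).1 (q' t) (hmem t ht).2.1).2
    have hsum : (N : ℝ) * (w r * w t) ≤ ∑ j ∈ Finset.range N,
        (1 - bl (W j) (cmp F j (q r)) (c j)) * (1 - bl (W j) (cmp F j (q' t)) (c j)) := by
      have hcard : (N : ℝ) * (w r * w t) = ∑ j ∈ Finset.range N, w r * w t := by
        rw [Finset.sum_const, Finset.card_range, nsmul_eq_mul]
      rw [hcard]
      apply Finset.sum_le_sum
      intro j hj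
      have hj' := Finset.mem_range.mp hj
      have a1 := (hvis r hr j hj').1
      have a2 := (hvis t ht j hj').2
      exact mul_le_mul a1 a2 (hmem t ht).2.2 (le_trans (hmem r hr).2.2 a1)
    have hlog := Real.log_le_log (posV r hr t ht) hk
    rw [Real.log_mul (pos0 r hr t ht).ne' (Real.exp_pos _).ne', Real.log_exp] at hlog
    have hm := mul_le_mul_of_nonneg_left hsum hc0.le
    simp only [hHdef]
    linarith [mul_assoc c₀ (N : ℝ) (w r * w t)]
  have hH0 : ∀ r ∈ I, ∀ t ∈ I, 0 ≤ H r t := by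
    intro r hr t ht
    refine le_trans ?_ (hlow r hr t ht)
    have := mul_nonneg (hmem r hr).2.2 (hmem t ht).2.2
    positivity
  have hup1 : ∀ r ∈ I, ∀ t ∈ I, H r t ≤ gr (W N) (cmp F N (q r)) (cmp F N (q' t)) := by
    intro r hr t ht
    have hb := (hQFN s (W 0) hs h0).2 (q r) (q' t)
    have : Real.log (bl (W 0) (q r) (q' t)) ≤ 0 := Real.log_nonpos hb.1 (hb.2.1.trans hb.2.2)
    simp only [hHdef, gr]
    linarith
  have hup2 : ∀ r ∈ I, ∀ t ∈ I, pd (W N) (cmp F N (q r)) (cmp F N (q' t)) ≤ ro (n + 1) →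
      H r t ≤ io := by
    intro r hr t ht hpd
    have hl := hloc r hr t ht (by linarith)
    have hlog := Real.log_le_log (pos0 r hr t ht) hl
    rw [Real.log_mul (Real.exp_pos _).ne' (posV r hr t ht).ne', Real.log_exp] at hlog
    simp only [hHdef]
    linarith
  have hcrp : ∀ r ∈ I, 0 < cr (W N) (cmp F N (q r)) ^ κ ∧ 0 < cr (W N) (cmp F N (q' r)) ^ κ := by
    intro r hr
    exact ⟨Real.rpow_pos_of_pos (hTDF s (W N) hV _ (hQ r hr)).2.1 _,
      Real.rpow_pos_of_pos (hTDF s (W N) hV _ (hQ' r hr)).2.1 _⟩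
  have hSq : SEP (W N) ε I (fun r => cmp F N (q r)) :=
    ⟨hQ, fun r hr t ht hrt => (hsep r hr t ht hrt).1⟩
  have hSq' : SEP (W N) ε I (fun r => cmp F N (q' r)) :=
    ⟨hQ', fun r hr t ht hrt => (hsep r hr t ht hrt).2⟩
  have hrow : ∀ r ∈ I, ∑ t ∈ I, H r t * cr (W N) (cmp F N (q' t)) ^ κ ≤
      (io * C₂ + δ * c₀) * cr (W N) (cmp F N (q r)) ^ κ := by
    intro r hr
    have hb := ENCH_row I (H r) (fun t => gr (W N) (cmp F N (q r)) (cmp F N (q' t)))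
      (fun t => pd (W N) (cmp F N (q r)) (cmp F N (q' t)))
      (fun t => cr (W N) (cmp F N (q' t)) ^ κ) (ro (n + 1)) io
      (C₂ * cr (W N) (cmp F N (q r)) ^ κ)
      (C₁ * (1 - κ / 8) ^ n * cr (W N) (cmp F N (q r)) ^ κ) hio
      (fun t ht => (hcrp t ht).2.le) (hup1 r hr) (hup2 r hr)
      (hN κ hκ0 hκ1 (W N) hV I _ hSq' _ (hQ r hr))
      (hS1 n (W N) hV I _ hSq' _ (hQ r hr))
    have hm := mul_le_mul_of_nonneg_right hn (hcrp r hr).1.le
    calc _ ≤ _ := hb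
      _ ≤ (io * C₂ + δ * c₀) * cr (W N) (cmp F N (q r)) ^ κ := by
        rw [add_mul, ← mul_assoc]
        linarith
  have hcol : ∀ t ∈ I, ∑ r ∈ I, H r t * cr (W N) (cmp F N (q r)) ^ κ ≤
      (io * C₂ + δ * c₀) * cr (W N) (cmp F N (q' t)) ^ κ := by
    intro t ht
    have hsy : ∀ r ∈ I, pd (W N) (cmp F N (q r)) (cmp F N (q' t)) =
        pd (W N) (cmp F N (q' t)) (cmp F N (q r)) := fun r hr =>
      (hTPT s (W N) hV _ (hQ r hr) _ (hQ' t ht) _ (hQ' t ht)).1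
    have hsb : ∀ r ∈ I, gr (W N) (cmp F N (q r)) (cmp F N (q' t)) =
        gr (W N) (cmp F N (q' t)) (cmp F N (q r)) := fun r hr => by
      simp only [gr]
      rw [(hTBM s (W N) hs hV _ (hQ r hr) _ (hQ' t ht)).2.2.2.1]
    have hb := ENCH_row I (fun r => H r t) (fun r => gr (W N) (cmp F N (q' t)) (cmp F N (q r)))
      (fun r => pd (W N) (cmp F N (q' t)) (cmp F N (q r)))
      (fun r => cr (W N) (cmp F N (q r)) ^ κ) (ro (n + 1)) io
      (C₂ * cr (W N) (cmp F N (q' t)) ^ κ)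
      (C₁ * (1 - κ / 8) ^ n * cr (W N) (cmp F N (q' t)) ^ κ) hio
      (fun r hr => (hcrp r hr).1.le) (fun r hr => by rw [← hsb r hr]; exact hup1 r hr t ht)
      (fun r hr hd => hup2 r hr t ht (by rw [hsy r hr]; exact hd))
      (hN κ hκ0 hκ1 (W N) hV I _ hSq _ (hQ' t ht))
      (hS1 n (W N) hV I _ hSq _ (hQ' t ht))
    have hm := mul_le_mul_of_nonneg_right hn (hcrp t ht).2.le
    calc _ ≤ _ := hb
      _ ≤ (io * C₂ + δ * c₀) * cr (W N) (cmp F N (q' t)) ^ κ := by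
        rw [add_mul, ← mul_assoc]
        linarith
  have hsh := hSHR I H w (fun r => cr (W N) (cmp F N (q r)) ^ κ)
    (fun t => cr (W N) (cmp F N (q' t)) ^ κ) (io * C₂ + δ * c₀) hH0 hcrp hrow hcol
  have hE0 : 0 ≤ ∑ r ∈ I, w r ^ 2 := Finset.sum_nonneg fun r _ => sq_nonneg _
  have hlo : c₀ * N * ((∑ r ∈ I, w r ^ 2) * ∑ r ∈ I, w r ^ 2) ≤
      (io * C₂ + δ * c₀) * ∑ r ∈ I, w r ^ 2 := by
    refine le_trans ?_ hsh
    rw [Finset.sum_mul_sum, Finset.mul_sum]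
    apply Finset.sum_le_sum
    intro r hr
    rw [Finset.mul_sum]
    apply Finset.sum_le_sum
    intro t ht
    have hm := mul_le_mul_of_nonneg_left (hlow r hr t ht)
      (mul_nonneg (hmem r hr).2.2 (hmem t ht).2.2)
    calc c₀ * N * (w r ^ 2 * w t ^ 2) = w r * w t * (c₀ * N * (w r * w t)) := by ring
      _ ≤ w r * w t * H r t := hm
  rcases hE0.eq_or_lt with hE | hE
  · rw [← hE, mul_zero]
    exact add_nonneg hδ.le (mul_nonneg (div_nonneg hC2 hc0.le) hio)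
  · have h1 : c₀ * N * (∑ r ∈ I, w r ^ 2) ≤ io * C₂ + δ * c₀ := by
      refine le_of_mul_le_mul_right ?_ hE
      calc c₀ * N * (∑ r ∈ I, w r ^ 2) * ∑ r ∈ I, w r ^ 2 =
          c₀ * N * ((∑ r ∈ I, w r ^ 2) * ∑ r ∈ I, w r ^ 2) := by ring
        _ ≤ _ := hlo
    have h2 : δ + C₂ / c₀ * io = (io * C₂ + δ * c₀) / c₀ := by
      field_simp
      ring
    rw [h2, le_div_iff₀ hc0]
    calc (N : ℝ) * (∑ r ∈ I, w r ^ 2) * c₀ = c₀ * N * (∑ r ∈ I, w r ^ 2) := by ring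
      _ ≤ _ := h1

end FSE
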